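import Pool.Agent.H90.VA.DGeo
import Pool.Agent.H90.VA.Arc
import Pool.Agent.H90.VA.Arca
import Pool.Agent.H90.VA.Arcb

/-!
# Adjoint line bundles on quotients by diagonal abelian groups

Let `V` be a projective variety of dimension `n` in projective space, possibly singular, and `G` a group
which acts on `V` by diagonal linear maps `x_j ↦ α_j(g) x_j`. Let `W` be a projective variety with
function field `ℂ(V)^G`, for instance `W = V/G`, and `f : V ⇢ W` the rational map. The action of `G` may have
fixed points, so that `W` can be smooth where `V → W` is ramified. Let `D` be the Davenport constant of the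
group of characters of `G`: the smallest number such that in each sequence of `D` characters the product
of some nonempty subsequence is trivial. The degree of `f` is at most the number of characters `|Ĝ|`, and
`D ≤ |Ĝ|`, with equality only for cyclic groups; for `Ĝ = (ℤ/p)^s` we have `|Ĝ| = p ^ s`, but
`D = s (p - 1) + 1` (Olson).

Let `𝓛` be a line bundle on `W` such that `f^* 𝓛 = 𝒪_V(ℓ) + E`, where `E` is effective, and `p` a smooth
point of `W` such that `f` is defined and `E` is trivial at all points of `V` over `p`.

* If `ℓ ≥ n + (k + 1) D`, then the global sections of `K_W + 𝓛` separate `p` from any `k` other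
  smooth points. For `k = 0` this says that `K_W + 𝓛` is generated at `p` if `ℓ ≥ n + D`.
* If `ℓ ≥ n + 2 D`, then the global sections of `K_W + 𝓛` separate tangent vectors at `p`.

For Fujita's conjecture let `A` be an ample line bundle on the smooth projective variety `W` of
dimension `n`, with `f^* A = 𝒪_V(k)`, `f : V → W` the quotient by `G`. Then `K_W + j A` is globally
generated if `j k ≥ n + D` and very ample if `j k ≥ n + 2 D`. In particular
`K_W + (n + 1) A` is globally generated if `D ≤ (n + 1) k - n`, and `K_W + (n + 2) A` is very ample if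
`2 D ≤ (n + 2) k - n`. For `k = 2` and `G = (ℤ/2)^s` these are the quotients by groups of order
up to `2 ^ (n + 1)`, respectively up to `2 ^ ((n + 2) / 2)`.

The starting repository proves generation for all maps `f` of degree `r` if `ℓ ≥ n + r`
(`BasePointsOfImages`), and separation for `ℓ ≥ n + 2 r` if `f` is flat (`VeryAmplenessOnImages`);
separation for `ℓ ≥ n + 2 r` without flatness is `VeryAmpleImages`. The starting repository also
has strong theorems on quotients `V/G` by diagonal groups which act freely on complete intersections or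
arithmetically Cohen-Macaulay varieties `V`, where no condition on `G` is needed. Here `V` is arbitrary
and `G` need not act freely.

Proof. Let `O` be a valuation ring of `ℂ(W)` which dominates the local ring of `p`. There is an `i` such
that all `ξ_j = x_j / x_i` are integral over `O`. In a product of `D` of the `ξ_j` some
subproduct is `G`-invariant, so it is in `ℂ(W)`, and as it is integral over `O` it is in `O`. So `O[ξ]` is
generated as an `O`-module by the monomials of degree `D - 1`. This replaces the bound on the degree in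
the proof of generation. For the separation theorems one also needs that, modulo the ideal of the fibre over
a point `p'`, each form of degree `D` is `x_i` times a form of degree `D - 1`: a monomial of degree `D` is
`b` times `x_i` times a monomial of degree `D - 1`, with `b ∈ O`, and the values of the trace form at
`p'` are in `ℂ`, so `b` can be replaced by a constant. The rest is as in `VeryAmpleImages`.

The function-field language of the starting repository is used: `K` and `L` are the function fields of
`V` and `W`. A canonical form (`IsPluri 1`) on a variety of dimension `n` is a function of `n` rational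
vector fields. Prime divisors over a variety are given by the places `P` (`Place`, `Divisorial`) of its
function field, `P.ord` is the order along `P`, and `DerReg P` says that a vector field is regular at
`P`. `Over Q P e` says that `Q` lies over `P` with ramification index `e`. A line bundle `𝓛` on `W`,
realised as a subsheaf of the constant sheaf `L`, is given by the numbers `a P`, where `- a P` is the
order at `P` of a generator of `𝓛` at the centre of `P`; that is, by the Cartier divisor `D` with
`𝓛 = 𝒪_W(D)` and its pull-backs to the other models.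
-/

set_option autoImplicit false
set_option linter.overlappingInstances false

open FF Pool.Agent.W602.GT

namespace Pool.Agent.Results.MP_9ff3e7_ag.AbelianQuotients

section

variable {K : Type} [Field K] [Algebra ℂ K] {n N : ℕ}

/-- `q` is a point, with homogeneous coordinates in an extension `κ` of `ℂ`, of the projective variety
with generic point `x`: all homogeneous equations of `x` hold for `q`. -/
def IsPoint {ι : Type} (x : ι → K) {κ : Type} [Field κ] [Algebra ℂ κ] (q : ι → κ) : Prop :=
  q ≠ 0 ∧ ∀ (e : ℕ) (F : MvPolynomial ι ℂ), F.IsHomogeneous e →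
    MvPolynomial.aeval x F = 0 → MvPolynomial.aeval q F = 0

/-- The point `q` lies on the closure of the centre of `P` on the projective variety with generic point
`x`: a form `B` which does not vanish at `q` does not vanish at this centre, that is, its order at `P`
is `deg B` times the minimum of the orders of the coordinates. -/
def Through (P : Place ℂ K) (x : Fin N → K) {κ : Type} [Field κ] [Algebra ℂ κ]
    (q : Fin N → κ) : Prop :=
  ∀ (e : ℕ) (B : MvPolynomial (Fin N) ℂ), B.IsHomogeneous e → MvPolynomial.aeval q B ≠ 0 →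
    ∀ i, x i ≠ 0 → P.ord (MvPolynomial.aeval x B) ≤ e * P.ord (x i)

/-- The functions `t j` are in the local ring of the point `p` of the projective variety with generic
point `y`: they are quotients `(G j)(y) / H(y)` of forms of the same degree, `H(p) ≠ 0`. -/
def RegularFunctions (y : Fin N → K) {κ : Type} [Field κ] [Algebra ℂ κ] (p : Fin N → κ)
    (t : Fin n → K) : Prop :=
  ∃ (e : ℕ) (H : MvPolynomial (Fin N) ℂ) (G : Fin n → MvPolynomial (Fin N) ℂ),
    H.IsHomogeneous e ∧ (∀ j, (G j).IsHomogeneous e) ∧ MvPolynomial.aeval p H ≠ 0 ∧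
    ∀ j, MvPolynomial.aeval y H * t j = MvPolynomial.aeval y (G j)

/-- The canonical form `θ` is at the prime divisor `P` a section of `K_W + 𝓛`: its values on vector
fields which are regular at `P` are sections of `𝓛` at `P`. -/
def SectionAt (a : Place ℂ K → ℤ) (P : Place ℂ K) (θ : (Fin n → Derivation ℂ K K) → K) : Prop :=
  ∀ D : Fin n → Derivation ℂ K K, (∀ i, DerReg P (D i)) → θ D = 0 ∨ - a P ≤ P.ord (θ D)

/-- `θ` is a global section of `K_W + 𝓛`. -/
def GlobalSection (a : Place ℂ K → ℤ) (θ : (Fin n → Derivation ℂ K K) → K) : Prop :=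
  IsPluri 1 θ ∧ ∀ P : Place ℂ K, Divisorial n P → SectionAt a P θ

/-- `η` generates `K_W + 𝓛` at the point `p` of `W`, the projective variety with generic point `y`: the
sections of `K_W + 𝓛` near `p`, that is, the canonical forms `θ` which are sections at all prime
divisors over `W` through `p`, are equal to `(A(y) / B(y)) η` with forms `A` and `B` of the same degree,
`B(p) ≠ 0`. -/
def Generates (a : Place ℂ K → ℤ) (y : Fin N → K) {κ : Type} [Field κ] [Algebra ℂ κ]
    (p : Fin N → κ) (η : (Fin n → Derivation ℂ K K) → K) : Prop :=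
  ∀ θ : (Fin n → Derivation ℂ K K) → K, IsPluri 1 θ →
    (∀ P : Place ℂ K, Divisorial n P → Through P y p → SectionAt a P θ) →
    ∃ (e : ℕ) (A B : MvPolynomial (Fin N) ℂ), A.IsHomogeneous e ∧ B.IsHomogeneous e ∧
      MvPolynomial.aeval p B ≠ 0 ∧
      ∀ D, MvPolynomial.aeval y B * θ D = MvPolynomial.aeval y A * η D

/-- The canonical form `g dt_1 ∧ ... ∧ dt_n`. -/
noncomputable def form (g : K) (t : Fin n → K) (D : Fin n → Derivation ℂ K K) : K :=
  g * (Matrix.of fun i j => D i (t j)).det

/-- `p` is a point of `W`, for instance a smooth point, at which `K_W + 𝓛` is generated by a nonzero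
form `g dt_1 ∧ ... ∧ dt_n`, where the functions `t j` are in the local ring of `p`. -/
def AdjointGenerator (a : Place ℂ K → ℤ) (y : Fin N → K) {κ : Type} [Field κ] [Algebra ℂ κ]
    (p : Fin N → κ) (g : K) (t : Fin n → K) : Prop :=
  RegularFunctions y p t ∧ (∃ D : Fin n → Derivation ℂ K K, form g t D ≠ 0) ∧
  Generates a y p (form g t)

/-- The section `θ`, which near `p` is `(A(y) / B(y)) η` with the generator `η`, vanishes at `p`. -/
def VanishesAt (y : Fin N → K) (p : Fin N → ℂ) (η θ : (Fin n → Derivation ℂ K K) → K) : Prop :=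
  ∃ (e : ℕ) (A B : MvPolynomial (Fin N) ℂ), A.IsHomogeneous e ∧ B.IsHomogeneous e ∧
    MvPolynomial.aeval p B ≠ 0 ∧ MvPolynomial.aeval p A = 0 ∧
    ∀ D, MvPolynomial.aeval y B * θ D = MvPolynomial.aeval y A * η D

/-- The section `θ`, which near `p` is `(A(y) / B(y)) η` with the generator `η`, vanishes at `p`, but
its derivative along `v` is not zero (since `A(p) = 0`, this means that the derivative of `A` at `p` in
the direction `v` is not zero). -/
def VanishesNotAlong (y : Fin N → K) (p v : Fin N → ℂ)
    (η θ : (Fin n → Derivation ℂ K K) → K) : Prop :=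
  ∃ (e : ℕ) (A B : MvPolynomial (Fin N) ℂ), A.IsHomogeneous e ∧ B.IsHomogeneous e ∧
    MvPolynomial.aeval p B ≠ 0 ∧ MvPolynomial.aeval p A = 0 ∧
    ∑ j, MvPolynomial.aeval p (MvPolynomial.pderiv j A) * v j ≠ 0 ∧
    ∀ D, MvPolynomial.aeval y B * θ D = MvPolynomial.aeval y A * η D

/-- `p` is a smooth point of the projective variety with generic point `y`: near `p` the variety is
defined by forms `F i` with linearly independent differentials at `p` (every form `G` in the ideal of
the variety is a combination of the `F i` after multiplication with some `B` with `B(p) ≠ 0`). -/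
def SmoothPoint (y : Fin N → K) (p : Fin N → ℂ) : Prop :=
  ∃ (c : ℕ) (d : Fin c → ℕ) (F : Fin c → MvPolynomial (Fin N) ℂ),
    (∀ i, (F i).IsHomogeneous (d i)) ∧ (∀ i, MvPolynomial.aeval y (F i) = 0) ∧
    LinearIndependent ℂ
      (fun (i : Fin c) (j : Fin N) => MvPolynomial.aeval p (MvPolynomial.pderiv j (F i))) ∧
    ∀ (e : ℕ) (G : MvPolynomial (Fin N) ℂ), G.IsHomogeneous e → MvPolynomial.aeval y G = 0 →
      ∃ (B : MvPolynomial (Fin N) ℂ) (A : Fin c → MvPolynomial (Fin N) ℂ),
        MvPolynomial.aeval p B ≠ 0 ∧ B * G = ∑ i, A i * F i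

/-- `v` gives a nonzero tangent vector at the point `p` of the projective variety with generic point
`y`: the derivatives at `p` in the direction `v` of all homogeneous equations are `0`, and `v` is not
proportional to `p`. -/
def IsTangent (y : Fin N → K) (p v : Fin N → ℂ) : Prop :=
  (∀ (e : ℕ) (G : MvPolynomial (Fin N) ℂ), G.IsHomogeneous e → MvPolynomial.aeval y G = 0 →
    ∑ j, MvPolynomial.aeval p (MvPolynomial.pderiv j G) * v j = 0) ∧
  ∃ j k, v j * p k ≠ v k * p j

/-- `v` is a limit of secant directions at `p`: `(p, v)` gives a point of the blow-up at `p` of the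
projective variety with generic point `y`, that is, of the closure of the graph of the projection
`y ↦ (y_j p_k - y_k p_j)` from `p`, in the Segre embedding. -/
def LimitDirection (y : Fin N → K) (p v : Fin N → ℂ) : Prop :=
  IsPoint (fun i : Fin N × Fin N × Fin N =>
      y i.1 * (y i.2.1 * algebraMap ℂ K (p i.2.2) - y i.2.2 * algebraMap ℂ K (p i.2.1)))
    (fun i : Fin N × Fin N × Fin N => p i.1 * (v i.2.1 * p i.2.2 - v i.2.2 * p i.2.1))

end

section

variable {K L : Type} [Field K] [Algebra ℂ K] [Field L] [Algebra ℂ L] [Algebra L K] {N M : ℕ}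

/-- The rational map `V ⇢ W`, given by the generic points `x` and `y`, is defined at the point `q` of
`V`: it is given by forms `F j` of the same degree which do not all vanish at `q`. -/
def Defined (x : Fin N → K) (y : Fin M → L) {κ : Type} [Field κ] [Algebra ℂ κ]
    (q : Fin N → κ) : Prop :=
  ∃ (e : ℕ) (F : Fin M → MvPolynomial (Fin N) ℂ), (∀ j, (F j).IsHomogeneous e) ∧
    (∀ j k, algebraMap L K (y j) * MvPolynomial.aeval x (F k) =
      algebraMap L K (y k) * MvPolynomial.aeval x (F j)) ∧
    ∃ j, MvPolynomial.aeval q (F j) ≠ 0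

/-- `(q, p)` is a point of the closure of the graph of `V ⇢ W`, in the Segre embedding. -/
def InGraph (x : Fin N → K) (y : Fin M → L) {κ : Type} [Field κ] [Algebra ℂ κ]
    (q : Fin N → κ) (p : Fin M → ℂ) : Prop :=
  IsPoint (fun ij : Fin N × Fin M => x ij.1 * algebraMap L K (y ij.2))
    (fun ij : Fin N × Fin M => q ij.1 * algebraMap ℂ κ (p ij.2))

/-- `s ↦ φ⁻¹ s` maps `𝒪_V(ℓ)` to `f^* 𝓛`, so that `f^* 𝓛 = 𝒪_V(ℓ) + E` with `E` effective. At a prime
divisor `Q` over `V` the sections of `𝒪_V(ℓ)` are the functions of order at least `ℓ` times the minimum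
of the orders of the coordinates, and those of `f^* 𝓛` are the functions of order at least `- e a(P)`,
where `P` is the place below `Q` and `e` the ramification index. -/
def PullBack (n ℓ : ℕ) (x : Fin N → K) (a : Place ℂ L → ℤ) (φ : K) : Prop :=
  φ ≠ 0 ∧ ∀ (Q : Place ℂ K) (P : Place ℂ L) (e : ℕ), Over Q P e → Divisorial n Q →
    ∀ i, x i ≠ 0 → Q.ord φ ≤ e * a P + ℓ * Q.ord (x i)

/-- `u` is a section of `𝒪_V(ℓ)` at the point `q` of `V`. -/
def SectionOfO (ℓ : ℕ) (x : Fin N → K) {κ : Type} [Field κ] [Algebra ℂ κ] (q : Fin N → κ) (u : K) :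
    Prop :=
  ∃ (e : ℕ) (A B : MvPolynomial (Fin N) ℂ), A.IsHomogeneous (e + ℓ) ∧ B.IsHomogeneous e ∧
    MvPolynomial.aeval q B ≠ 0 ∧ MvPolynomial.aeval x B * u = MvPolynomial.aeval x A

end

/-- `G` acts on the function field `K` of `V` with field of invariants `L`, and it acts on the homogeneous
coordinates `x j` by diagonal matrices, up to common factors `c g`. -/
def DiagonalAction {K : Type} [Field K] [Algebra ℂ K] {N : ℕ} (x : Fin N → K) (L : Type) [Field L]
    [Algebra ℂ L] [Algebra L K] {G : Type} [Group G] (ρ : G →* (K ≃ₐ[L] K))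
    (α : Fin N → (G →* ℂˣ)) : Prop :=
  (∀ z : K, (∀ g, ρ g z = z) → ∃ b : L, algebraMap L K b = z) ∧
  ∀ g, ∃ c : K, c ≠ 0 ∧ ∀ j, ρ g (x j) = c * (algebraMap ℂ K (α j g : ℂˣ) * x j)

/-- The Davenport constant of `A` is at most `δ`: in each sequence of `δ` elements the product of some
nonempty subsequence is `1`. -/
def DavenportLE (A : Type) [CommMonoid A] (δ : ℕ) : Prop :=
  ∀ f : Fin δ → A, ∃ s : Finset (Fin δ), s.Nonempty ∧ ∏ k ∈ s, f k = 1

/-- the products of quotients of coordinates which are invariant -/
theorem invariant_products {K : Type} [Field K] [Algebra ℂ K] {N : ℕ} {x : Fin N → K} {L : Type}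
    [Field L] [Algebra ℂ L] [Algebra L K] {G : Type} [Group G] {ρ : G →* (K ≃ₐ[L] K)}
    {α : Fin N → (G →* ℂˣ)} (action : DiagonalAction x L ρ α) {δ : ℕ}
    (davenport : DavenportLE (G →* ℂˣ) δ) (i : Fin N) (hi : x i ≠ 0) (f : Fin δ → Fin N) :
    ∃ s : Finset (Fin δ), s.Nonempty ∧
      ∃ b : L, algebraMap L K b = ∏ k ∈ s, (x (f k) / x i) := by
  classical
  obtain ⟨s, hs, h1⟩ := davenport fun k => α (f k) * (α i)⁻¹
  refine ⟨s, hs, action.1 _ fun g => ?_⟩
  obtain ⟨c, hc, hρ⟩ := action.2 g
  have h2 : ∀ k, ρ g (x (f k) / x i) =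
      algebraMap ℂ K (((α (f k) * (α i)⁻¹) g : ℂˣ) : ℂ) * (x (f k) / x i) := by
    intro k
    have h3 : algebraMap ℂ K ((α i g : ℂˣ) : ℂ) ≠ 0 := by
      rw [Ne, map_eq_zero]
      exact Units.ne_zero _
    rw [map_div₀, hρ, hρ, MonoidHom.mul_apply, MonoidHom.inv_apply, Units.val_mul,
      Units.val_inv_eq_inv_val, map_mul, map_inv₀]
    field_simp
  rw [map_prod, Finset.prod_congr rfl fun k _ => h2 k, Finset.prod_mul_distrib]
  have h4 : ∏ k ∈ s, algebraMap ℂ K (((α (f k) * (α i)⁻¹) g : ℂˣ) : ℂ) = 1 := by
    have h5 := congrArg (fun χ : G →* ℂˣ => ((χ g : ℂˣ) : ℂ)) h1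
    simp only [MonoidHom.finsetProd_apply, MonoidHom.one_apply, Units.coe_prod, Units.val_one]
      at h5
    rw [← map_prod, h5, map_one]
  rw [h4, one_mul]

/-- **Adjoint line bundles on quotients by diagonal abelian groups.** Let `V` and `W` be projective
varieties of dimension `n` with generic points `x` and `y` and function fields `K` and `L`. Let the group
`G` act on `K` with field of invariants `L` and diagonally on the coordinates `x j`, and let the
Davenport constant of the group of characters of `G` be at most `δ`. Let `𝓛` be a line bundle on `W` with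
`f^* 𝓛 = 𝒪_V(ℓ) + E`, `E` effective. Let `p` be a point of `W` at which `K_W + 𝓛` is generated by
`g dt_1 ∧ ... ∧ dt_n` with `t j` in the local ring of `p`, and suppose that at all points `q` of `V` over
`p` the rational map `f` is defined and `E` is trivial (`φ g` is a section of `𝒪_V(ℓ)`).

If `ℓ ≥ n + (k + 1) δ`, then for any `k` points `p' i ≠ p` of `W` at which `K_W + 𝓛` is also generated by
such forms there is a global section of `K_W + 𝓛` which generates `K_W + 𝓛` at `p` and vanishes at
all `p' i`. In particular `K_W + 𝓛` is generated at `p` by its global sections if `ℓ ≥ n + δ`.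

If `ℓ ≥ n + 2 δ`, then for each tangent vector `v` at the smooth point `p`, and for each limit `v` of
secant directions at `p` if `p` is not smooth, there is a global section of `K_W + 𝓛` which vanishes at
`p`, but whose derivative along `v` is not zero. -/
theorem result {n ℓ δ N M : ℕ} {K : Type} [Field K] [Algebra ℂ K] [Algebra.EssFiniteType ℂ K]
    (hK : Algebra.trdeg ℂ K = n) {x : Fin N → K} (hx : x ≠ 0)
    (L : Type) [Field L] [Algebra ℂ L] [Algebra L K] [IsScalarTower ℂ L K]
    [FiniteDimensional L K] {G : Type} [Group G] {ρ : G →* (K ≃ₐ[L] K)}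
    {α : Fin N → (G →* ℂˣ)} (action : DiagonalAction x L ρ α)
    (davenport : DavenportLE (G →* ℂˣ) δ) {y : Fin M → L}
    (a : Place ℂ L → ℤ) {φ : K} (pullback : PullBack n ℓ x a φ)
    {p : Fin M → ℂ} (hp : IsPoint y p) {g : L} {t : Fin n → L}
    (generator : AdjointGenerator a y p g t)
    (fibre : ∀ (κ : Type) [Field κ] [Algebra ℂ κ] (q : Fin N → κ), InGraph x y q p →
      Defined x y q ∧ SectionOfO ℓ x q (φ * algebraMap L K g)) :
    (∀ k : ℕ, n + (k + 1) * δ ≤ ℓ →
      ∀ (p' : Fin k → Fin M → ℂ) (g' : Fin k → L) (t' : Fin k → Fin n → L),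
        (∀ i, IsPoint y (p' i)) → (∀ i, ∃ j l, p j * p' i l ≠ p l * p' i j) →
        (∀ i, AdjointGenerator a y (p' i) (g' i) (t' i)) →
        ∃ θ : (Fin n → Derivation ℂ L L) → L, GlobalSection a θ ∧ Generates a y p θ ∧
          ∀ i, VanishesAt y (p' i) (form (g' i) (t' i)) θ) ∧
    (n + 2 * δ ≤ ℓ →
      ∀ v : Fin M → ℂ, (SmoothPoint y p ∧ IsTangent y p v) ∨ LimitDirection y p v →
        ∃ θ : (Fin n → Derivation ℂ L L) → L, GlobalSection a θ ∧
          VanishesNotAlong y p v (form g t) θ) := by
  have hδ : 0 < δ := by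
    rcases Nat.eq_zero_or_pos δ with rfl | h
    · obtain ⟨s, ⟨k, hk⟩, -⟩ := davenport fun _ => 1
      exact absurd k.2 (Nat.not_lt_zero _)
    · exact h
  obtain ⟨r, rfl⟩ : ∃ r, δ = r + 1 := ⟨δ - 1, by omega⟩
  have hgood : Pool.Agent.H90.VA.Good L x r := Pool.Agent.H90.VA.good_diag hx
    (fun i hi f => invariant_products action davenport i hi f)
  refine ⟨fun k hk p' g' t' hp' hpp' hgen' => ?_, fun hk v hv => ?_⟩
  · have h2 : (k + 1) * (r + 1) = k * (r + 1) + (r + 1) := by ring
    obtain ⟨T, hT⟩ : ∃ T, ℓ = k * (r + 1) + T + (n + 1) := ⟨ℓ - (k * (r + 1) + (n + 1)), by omega⟩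
    subst hT
    obtain ⟨θ, hθ1, hθ2, hθ3, hθ4⟩ := Pool.Agent.H90.VA.fuj_ptsG (m := k * (r + 1) + T) (r := r)
      (T := T) (k := k) hK hx hgood (by omega) rfl a pullback.1 pullback.2 hp generator.1
      generator.2.1 generator.2.2 fibre hp' hpp' (fun i => (hgen' i).2.1)
      (fun i => (hgen' i).2.2)
    exact ⟨θ, ⟨hθ1, hθ2⟩, hθ3, hθ4⟩
  · obtain ⟨T, hT⟩ : ∃ T, ℓ = r + 1 + T + (n + 1) := ⟨ℓ - (r + 1 + (n + 1)), by omega⟩
    subst hT
    have hd : Pool.Agent.H90.VA.Direction y p v := by
      rcases hv with hv | hv
      · exact Pool.Agent.H90.VA.smooth_dir Pool.Agent.H90.VA.arca Pool.Agent.H90.VA.arcb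
          hp hv.1 hv.2
      · exact hv
    obtain ⟨θ, hθ1, hθ2, hθ3⟩ := Pool.Agent.H90.VA.fuj_tanG (m := r + 1 + T) (r := r)
      (T := T) hK hx hgood (by omega) rfl a pullback.1 pullback.2 hp hd generator.1
      generator.2.1 generator.2.2 fibre
    exact ⟨θ, ⟨hθ1, hθ2⟩, hθ3⟩

end Pool.Agent.Results.MP_9ff3e7_ag.AbelianQuotients
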