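import Pool.Agent.H90.TF.Fin

/-!
# Freeness for quotients of complete intersections in toric varieties

Let `P` be the toric variety of a complete simplicial fan in `ℤ^N` with the rays `u_i`, `i ∈ ι`, given
as in Cox's construction: the points of `P` are the vectors `y ∈ ℂ^ι` such that `{i | y_i = 0}` is a
cone, modulo the group of the `t ∈ (ℂˣ)^ι` with `∏ t_i ^ (u_i)_k = 1` for all `k`; the Weil divisor
classes are the `a ∈ ℤ^ι` modulo linear equivalence; a class `a` may differ by a non-trivial torsion
class from another one. The sections of `O_P(a)` are the polynomials in the Cox coordinates whose
monomials are linearly equivalent to `a`. Let `X = {f_1 = ⋯ = f_c = 0} ⊂ P` be a complete intersection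
of dimension `n = N - c`, contained in the smooth locus of `P`, where `f_j` is homogeneous of the class
`D_j`. The canonical divisor of `X` is the restriction of the class `∑ D_j - ∑ D_i`, that is of the
vector `∑ D_j - 1`.

We prove: if `X` is smooth (or if the `D_j` are ample and numerically free) and `A_1, …, A_k` are
`k ≥ n + 1` classes which are ample and numerically base point free, then `K_X + A_1 + ⋯ + A_k` is
globally generated: at each point of `X` one of the monomials of this class does not vanish.

The point is that the `A_q` and the `D_j` are free only up to torsion classes. In geometric terms:
let `P'` be the toric variety of the sublattice generated by the `u_i`; then `P = P'/G` for a finite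
group `G` of the torus, and `X = Y/G` for a complete intersection `Y ⊂ P'` on which `G` acts freely
(if `Y` is in the smooth locus of `P'`). If `P'` is smooth, for instance a product of projective
spaces, all ample classes of `P` are numerically free, and if `dim X ≥ 3` and the `D_j` are ample, each
line bundle on `X` is the restriction of a class of `P` by the theorem of Lefschetz. So Q1 holds for the
quotients `Y/G`, `dim ≥ 3`, of all smooth complete intersections `Y` of ample divisors in smooth
projective toric varieties by the finite subgroups `G` of the torus which act freely on `Y`.

Proof. Let `y` be a point of `X`; take a point `z` of `X` in a minimal orbit `O_τ`, with `{y = 0}`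
contained in `τ`. A covering argument (the convex cone of the numbers `α` of monomials, the dimension
of `X ∩ O_τ`, the fact that a closed subvariety of a torus of positive dimension is not proper, and a
transversal of Rado type) shows that `X ∩ O_τ` is finite and gives for each `j` in a set `P` of the
indices a difference `v_j` of two monomials of `f_j` such that these `v_j` are a basis of the rational
vector space of the linear forms which vanish on `τ`. The real divisor in the class of
`K_P + ∑ D_j + ∑ A_q` which has the coefficient zero on `τ` is congruent to the sum of the effective
representatives of the `D_j` and `A_q` modulo `∑ t_j v_j`, and the fractional parts of the `t_j` give an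
integral representative which is positive outside `τ`; the number of the classes used is at most
`n + 1`, because `X ∩ O_τ` is finite.
-/

set_option autoImplicit false

namespace Pool.Agent.Results.MP_9ff3e7_ag.ToricCompleteIntersections

open H90.TF MvPolynomial

/-- **Fujita's freeness conjecture for quotients of complete intersections in toric varieties.** Let
`u`, `S` be a complete simplicial fan in `ℤ^N`, `P` its toric variety, `X = {f_1 = ⋯ = f_c = 0} ⊂ P`
with `f_j` homogeneous of the class `D_j` in the Cox coordinates, `N = n + c`, and assume that all
points of `X` are in smooth orbits of `P`. Assume that the differentials of the `f_j` are linearly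
independent at all points of `X` (so `X` is smooth of dimension `n`), or that the classes `D_j` are
ample and numerically free. Let `A_1, …, A_k`, `k ≥ n + 1`, be ample and numerically free divisor
classes on `P`. Then for each point `y` of `X` there is a monomial in the class
`K_P + ∑ D_j + ∑ A_q = ∑ D_j + ∑ A_q - 1` (the class of `K_X + A_1 + ⋯ + A_k`) which does not
vanish at `y`. -/
theorem result {ι : Type} [Fintype ι] {N n c k : ℕ} (u : ι → Fin N → ℤ) (S : Set (Set ι))
    (hS : IsFan u S) (hN : N = n + c) (hk : n + 1 ≤ k)
    (f : Fin c → MvPolynomial ι ℂ) (D : Fin c → ι → ℤ) (hf : ∀ j, IsHomog u (f j) (D j))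
    (hreg : ∀ y, IsPoint S f y → IsRegularCone u {i | y i = 0})
    (hX : (∀ y, IsPoint S f y → LinearIndependent ℂ fun j => fun i => eval y (pderiv i (f j))) ∨
      ∀ j, IsAmpleFree u S (D j))
    (A : Fin k → ι → ℤ) (hA : ∀ q, IsAmpleFree u S (A q)) :
    ∀ y, IsPoint S f y → ∃ μ : ι →₀ ℕ,
      LinEquiv u (fun i => (μ i : ℤ)) (fun i => ∑ j, D j i + ∑ q, A q i - 1) ∧
        eval y (monomial μ (1 : ℂ)) ≠ 0 :=
  fun _ hy => main hS hN hk hf hreg hX hA hy

end Pool.Agent.Results.MP_9ff3e7_ag.ToricCompleteIntersections
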