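import Pool.Agent.H90.VA.Geo
import Pool.Agent.H90.VA.Arc
import Pool.Agent.H90.VA.Arca
import Pool.Agent.H90.VA.Arcb

/-!
# Very ampleness of adjoint line bundles on images of small degree

Let `V` be a projective variety of dimension `n` in projective space, possibly singular, and `f : V ⇢ W`
a dominant rational map of degree `r` onto a projective variety `W`. Let `𝓛` be a line bundle on `W` such
that `f^* 𝓛 = 𝒪_V(ℓ) + E`, where `E` is effective.

The theorem: let `p` be a smooth point of `W` such that `f` is defined and `E` is trivial at all points of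
`V` over `p`.

* If `ℓ ≥ n + (k + 1) r`, then the global sections of `K_W + 𝓛` separate `p` from any `k` other
  smooth points: some section generates `K_W + 𝓛` at `p` and vanishes at the `k` points.
* If `ℓ ≥ n + 2 r`, then the global sections of `K_W + 𝓛` separate tangent vectors at `p`: for each
  tangent vector `v` some section vanishes at `p`, but its derivative along `v` is not zero.

For Fujita's conjecture (Q2) let `A` be an ample line bundle on the smooth projective variety `W` of
dimension `n`, and suppose that `W` has a finite covering `f : V → W` of degree `r`, with any projective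
variety `V ⊂ ℙ^N`, such that `f^* A = 𝒪_V(k)`. Then `K_W + j A` separates points and tangent vectors, so it
is very ample, if `j k ≥ n + 2 r`. In particular `K_W + (n + 2) A` is very ample if
`2 r ≤ (n + 2) k - n`; for `k = 2` these are the coverings of degree at most `(n + 4) / 2`. The case
`r = 1`, where `A` is `k` times a very ample line bundle, is classical.

If `V` is Cohen-Macaulay and `f` is a finite morphism, so that `f` is flat over the smooth points of
`W`, then this can be proved with the vanishing theorem of Kollár and Castelnuovo-Mumford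
regularity on `V`; the starting repository has an algebraic proof if `f` is finite and flat over the
points, also for jets (`VeryAmplenessOnImages`, handed in for Fujita's very ampleness conjecture
MP_e09b14_ag). Here nothing is assumed about the singularities of `V` (which need not be normal), and
`f` need not be flat or a morphism; the lengths of the fibres can be larger than `r`.

The proof is algebraic. The canonical forms `∑ ± x_(i_0) dx_(i_1) ∧ ... ∧ dx_(i_n)` are sections of
`K_V + (n + 1) H`; the traces `θ_g` to `W` of their products with the forms `g` of degree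
`m = ℓ - n - 1` on `V` are sections of `K_W + 𝓛`. The starting repository shows with these that
`K_W + 𝓛` is generated at `p` if `m ≥ r - 1`.

Points. Let `O'` be a valuation ring of `ℂ(W)` which dominates the local ring of `p'`, and `C'` the algebra
over `O'` generated by the quotients of the coordinates of `V` by a suitable linear form `λ`. Let `J` be
the ideal of all polynomials `h` such that all `τ(h c s)`, `c ∈ C'`, are in the maximal ideal of `O'`;
here `τ` is the trace, divided by a generator at `p'`. For a form `h` of degree `r` in `J` the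
sections `θ_(gh)`, `deg g = m - r`, vanish at `p'`. Since `C'` is generated as an `O'`-module by the
monomials of degree `r - 1`, and since the values `τ(g s)` at `p'` are in `ℂ`, any `r + 1`
forms of degree `≤ m - r + 1` are linearly dependent over `ℂ` modulo `J`. As `m ≥ 2r - 1`, it follows that
every form of degree `r` is in `J` up to a form `λ g` with `deg g = r - 1`; so the forms of degree `r` in
`J` define the fibre over `p'`: if they all vanish at a point `q`, all forms in `J` do, and `f(q) = p'`. So
they do not have a common zero over `p ≠ p'`, and the theorem of the starting repository for `p` and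
`deg g = m - r` gives the section.

Tangent vectors. Let `O` be a valuation ring which dominates the point `v` of the blow-up of `p`, and
`t ∈ O` a local equation of the exceptional divisor. If `v` is not separated, then after a change of
the generator by a factor `1 + μ t` all values `τ(g s)` are in `ℂ + t 𝔪_O`. Let `J_1` and `J_t` be the ideals
of the polynomials `h` such that `τ(h c s)` is in `𝔪_O`, respectively `t 𝔪_O`, for all `c`. By the
above argument, every polynomial is modulo `J_t` a form of degree `r - 1`. This implies `J_1 = J_t`. At a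
point `q` over `p` we have `t = A / B` up to a unit, with forms `A`, `B`, `B(q) ≠ 0`, so `A ∈ J_1 = J_t`, and
`B ∈ J_1`. As this holds for all `q`, we have `1 ∈ J_1`, which contradicts generation at `p`.

The function-field language of the starting repository is used: `K` and `L` are the function fields of
`V` and `W`. A canonical form (`IsPluri 1`) on a variety of dimension `n` is a function of `n` rational
vector fields. Prime divisors over a variety are given by the places `P` (`Place`, `Divisorial`) of its
function field, `P.ord` is the order along `P`, and `DerReg P` says that a vector field is regular at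
`P`. `Over Q P e` says that `Q` lies over `P` with ramification index `e`. A line bundle `𝓛` on `W`,
realised as a subsheaf of the constant sheaf `L`, is given by the numbers `a P`, where `- a P` is the
order at `P` of a generator of `𝓛` at the centre of `P`; that is, by the Cartier divisor `D` with
`𝓛 = 𝒪_W(D)` and its pull-backs to the other models.
-/

set_option autoImplicit false
set_option linter.overlappingInstances false

open FF Pool.Agent.W602.GT

namespace Pool.Agent.Results.MP_9ff3e7_ag.VeryAmpleImages

section

variable {K : Type} [Field K] [Algebra ℂ K] {n N : ℕ}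

/-- `q` is a point, with homogeneous coordinates in an extension `κ` of `ℂ`, of the projective variety
with generic point `x`: all homogeneous equations of `x` hold for `q`. -/
def IsPoint {ι : Type} (x : ι → K) {κ : Type} [Field κ] [Algebra ℂ κ] (q : ι → κ) : Prop :=
  q ≠ 0 ∧ ∀ (e : ℕ) (F : MvPolynomial ι ℂ), F.IsHomogeneous e →
    MvPolynomial.aeval x F = 0 → MvPolynomial.aeval q F = 0

/-- The point `q` lies on the closure of the centre of `P` on the projective variety with generic point
`x`: a form `B` which does not vanish at `q` does not vanish at this centre, that is, its order at `P`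
is `deg B` times the minimum of the orders of the coordinates. -/
def Through (P : Place ℂ K) (x : Fin N → K) {κ : Type} [Field κ] [Algebra ℂ κ]
    (q : Fin N → κ) : Prop :=
  ∀ (e : ℕ) (B : MvPolynomial (Fin N) ℂ), B.IsHomogeneous e → MvPolynomial.aeval q B ≠ 0 →
    ∀ i, x i ≠ 0 → P.ord (MvPolynomial.aeval x B) ≤ e * P.ord (x i)

/-- The functions `t j` are in the local ring of the point `p` of the projective variety with generic
point `y`: they are quotients `(G j)(y) / H(y)` of forms of the same degree, `H(p) ≠ 0`. -/
def RegularFunctions (y : Fin N → K) {κ : Type} [Field κ] [Algebra ℂ κ] (p : Fin N → κ)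
    (t : Fin n → K) : Prop :=
  ∃ (e : ℕ) (H : MvPolynomial (Fin N) ℂ) (G : Fin n → MvPolynomial (Fin N) ℂ),
    H.IsHomogeneous e ∧ (∀ j, (G j).IsHomogeneous e) ∧ MvPolynomial.aeval p H ≠ 0 ∧
    ∀ j, MvPolynomial.aeval y H * t j = MvPolynomial.aeval y (G j)

/-- The canonical form `θ` is at the prime divisor `P` a section of `K_W + 𝓛`: its values on vector
fields which are regular at `P` are sections of `𝓛` at `P`. -/
def SectionAt (a : Place ℂ K → ℤ) (P : Place ℂ K) (θ : (Fin n → Derivation ℂ K K) → K) : Prop :=
  ∀ D : Fin n → Derivation ℂ K K, (∀ i, DerReg P (D i)) → θ D = 0 ∨ - a P ≤ P.ord (θ D)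

/-- `θ` is a global section of `K_W + 𝓛`. -/
def GlobalSection (a : Place ℂ K → ℤ) (θ : (Fin n → Derivation ℂ K K) → K) : Prop :=
  IsPluri 1 θ ∧ ∀ P : Place ℂ K, Divisorial n P → SectionAt a P θ

/-- `η` generates `K_W + 𝓛` at the point `p` of `W`, the projective variety with generic point `y`: the
sections of `K_W + 𝓛` near `p`, that is, the canonical forms `θ` which are sections at all prime
divisors over `W` through `p`, are equal to `(A(y) / B(y)) η` with forms `A` and `B` of the same degree,
`B(p) ≠ 0`. -/
def Generates (a : Place ℂ K → ℤ) (y : Fin N → K) {κ : Type} [Field κ] [Algebra ℂ κ]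
    (p : Fin N → κ) (η : (Fin n → Derivation ℂ K K) → K) : Prop :=
  ∀ θ : (Fin n → Derivation ℂ K K) → K, IsPluri 1 θ →
    (∀ P : Place ℂ K, Divisorial n P → Through P y p → SectionAt a P θ) →
    ∃ (e : ℕ) (A B : MvPolynomial (Fin N) ℂ), A.IsHomogeneous e ∧ B.IsHomogeneous e ∧
      MvPolynomial.aeval p B ≠ 0 ∧
      ∀ D, MvPolynomial.aeval y B * θ D = MvPolynomial.aeval y A * η D

/-- The canonical form `g dt_1 ∧ ... ∧ dt_n`. -/
noncomputable def form (g : K) (t : Fin n → K) (D : Fin n → Derivation ℂ K K) : K :=
  g * (Matrix.of fun i j => D i (t j)).det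

/-- `p` is a point of `W`, for instance a smooth point, at which `K_W + 𝓛` is generated by a nonzero
form `g dt_1 ∧ ... ∧ dt_n`, where the functions `t j` are in the local ring of `p`. -/
def AdjointGenerator (a : Place ℂ K → ℤ) (y : Fin N → K) {κ : Type} [Field κ] [Algebra ℂ κ]
    (p : Fin N → κ) (g : K) (t : Fin n → K) : Prop :=
  RegularFunctions y p t ∧ (∃ D : Fin n → Derivation ℂ K K, form g t D ≠ 0) ∧
  Generates a y p (form g t)

/-- The section `θ`, which near `p` is `(A(y) / B(y)) η` with the generator `η`, vanishes at `p`. -/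
def VanishesAt (y : Fin N → K) (p : Fin N → ℂ) (η θ : (Fin n → Derivation ℂ K K) → K) : Prop :=
  ∃ (e : ℕ) (A B : MvPolynomial (Fin N) ℂ), A.IsHomogeneous e ∧ B.IsHomogeneous e ∧
    MvPolynomial.aeval p B ≠ 0 ∧ MvPolynomial.aeval p A = 0 ∧
    ∀ D, MvPolynomial.aeval y B * θ D = MvPolynomial.aeval y A * η D

/-- The section `θ`, which near `p` is `(A(y) / B(y)) η` with the generator `η`, vanishes at `p`, but
its derivative along `v` is not zero (since `A(p) = 0`, this means that the derivative of `A` at `p` in
the direction `v` is not zero). -/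
def VanishesNotAlong (y : Fin N → K) (p v : Fin N → ℂ)
    (η θ : (Fin n → Derivation ℂ K K) → K) : Prop :=
  ∃ (e : ℕ) (A B : MvPolynomial (Fin N) ℂ), A.IsHomogeneous e ∧ B.IsHomogeneous e ∧
    MvPolynomial.aeval p B ≠ 0 ∧ MvPolynomial.aeval p A = 0 ∧
    ∑ j, MvPolynomial.aeval p (MvPolynomial.pderiv j A) * v j ≠ 0 ∧
    ∀ D, MvPolynomial.aeval y B * θ D = MvPolynomial.aeval y A * η D

/-- `p` is a smooth point of the projective variety with generic point `y`: near `p` the variety is
defined by forms `F i` with linearly independent differentials at `p` (every form `G` in the ideal of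
the variety is a combination of the `F i` after multiplication with some `B` with `B(p) ≠ 0`). -/
def SmoothPoint (y : Fin N → K) (p : Fin N → ℂ) : Prop :=
  ∃ (c : ℕ) (d : Fin c → ℕ) (F : Fin c → MvPolynomial (Fin N) ℂ),
    (∀ i, (F i).IsHomogeneous (d i)) ∧ (∀ i, MvPolynomial.aeval y (F i) = 0) ∧
    LinearIndependent ℂ
      (fun (i : Fin c) (j : Fin N) => MvPolynomial.aeval p (MvPolynomial.pderiv j (F i))) ∧
    ∀ (e : ℕ) (G : MvPolynomial (Fin N) ℂ), G.IsHomogeneous e → MvPolynomial.aeval y G = 0 →
      ∃ (B : MvPolynomial (Fin N) ℂ) (A : Fin c → MvPolynomial (Fin N) ℂ),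
        MvPolynomial.aeval p B ≠ 0 ∧ B * G = ∑ i, A i * F i

/-- `v` gives a nonzero tangent vector at the point `p` of the projective variety with generic point
`y`: the derivatives at `p` in the direction `v` of all homogeneous equations are `0`, and `v` is not
proportional to `p`. -/
def IsTangent (y : Fin N → K) (p v : Fin N → ℂ) : Prop :=
  (∀ (e : ℕ) (G : MvPolynomial (Fin N) ℂ), G.IsHomogeneous e → MvPolynomial.aeval y G = 0 →
    ∑ j, MvPolynomial.aeval p (MvPolynomial.pderiv j G) * v j = 0) ∧
  ∃ j k, v j * p k ≠ v k * p j

/-- `v` is a limit of secant directions at `p`: `(p, v)` gives a point of the blow-up at `p` of the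
projective variety with generic point `y`, that is, of the closure of the graph of the projection
`y ↦ (y_j p_k - y_k p_j)` from `p`, in the Segre embedding. -/
def LimitDirection (y : Fin N → K) (p v : Fin N → ℂ) : Prop :=
  IsPoint (fun i : Fin N × Fin N × Fin N =>
      y i.1 * (y i.2.1 * algebraMap ℂ K (p i.2.2) - y i.2.2 * algebraMap ℂ K (p i.2.1)))
    (fun i : Fin N × Fin N × Fin N => p i.1 * (v i.2.1 * p i.2.2 - v i.2.2 * p i.2.1))

end

section

variable {K L : Type} [Field K] [Algebra ℂ K] [Field L] [Algebra ℂ L] [Algebra L K] {N M : ℕ}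

/-- The rational map `V ⇢ W`, given by the generic points `x` and `y`, is defined at the point `q` of
`V`: it is given by forms `F j` of the same degree which do not all vanish at `q`. -/
def Defined (x : Fin N → K) (y : Fin M → L) {κ : Type} [Field κ] [Algebra ℂ κ]
    (q : Fin N → κ) : Prop :=
  ∃ (e : ℕ) (F : Fin M → MvPolynomial (Fin N) ℂ), (∀ j, (F j).IsHomogeneous e) ∧
    (∀ j k, algebraMap L K (y j) * MvPolynomial.aeval x (F k) =
      algebraMap L K (y k) * MvPolynomial.aeval x (F j)) ∧
    ∃ j, MvPolynomial.aeval q (F j) ≠ 0

/-- `(q, p)` is a point of the closure of the graph of `V ⇢ W`, in the Segre embedding. -/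
def InGraph (x : Fin N → K) (y : Fin M → L) {κ : Type} [Field κ] [Algebra ℂ κ]
    (q : Fin N → κ) (p : Fin M → ℂ) : Prop :=
  IsPoint (fun ij : Fin N × Fin M => x ij.1 * algebraMap L K (y ij.2))
    (fun ij : Fin N × Fin M => q ij.1 * algebraMap ℂ κ (p ij.2))

/-- `s ↦ φ⁻¹ s` maps `𝒪_V(ℓ)` to `f^* 𝓛`, so that `f^* 𝓛 = 𝒪_V(ℓ) + E` with `E` effective. At a prime
divisor `Q` over `V` the sections of `𝒪_V(ℓ)` are the functions of order at least `ℓ` times the minimum
of the orders of the coordinates, and those of `f^* 𝓛` are the functions of order at least `- e a(P)`,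
where `P` is the place below `Q` and `e` the ramification index. -/
def PullBack (n ℓ : ℕ) (x : Fin N → K) (a : Place ℂ L → ℤ) (φ : K) : Prop :=
  φ ≠ 0 ∧ ∀ (Q : Place ℂ K) (P : Place ℂ L) (e : ℕ), Over Q P e → Divisorial n Q →
    ∀ i, x i ≠ 0 → Q.ord φ ≤ e * a P + ℓ * Q.ord (x i)

/-- `u` is a section of `𝒪_V(ℓ)` at the point `q` of `V`. -/
def SectionOfO (ℓ : ℕ) (x : Fin N → K) {κ : Type} [Field κ] [Algebra ℂ κ] (q : Fin N → κ) (u : K) :
    Prop :=
  ∃ (e : ℕ) (A B : MvPolynomial (Fin N) ℂ), A.IsHomogeneous (e + ℓ) ∧ B.IsHomogeneous e ∧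
    MvPolynomial.aeval q B ≠ 0 ∧ MvPolynomial.aeval x B * u = MvPolynomial.aeval x A

end

/-- **Very ampleness of adjoint line bundles on images of small degree.** Let `V` and `W` be projective
varieties of dimension `n` with generic points `x` and `y` and function fields `K` and `L`,
`f : V ⇢ W` a dominant rational map of degree `r = [K : L]`, and `𝓛` a line bundle on `W` with
`f^* 𝓛 = 𝒪_V(ℓ) + E`, `E` effective. Let `p` be a point of `W` at which
`K_W + 𝓛` is generated by `g dt_1 ∧ ... ∧ dt_n` with `t j` in the local ring of `p`, and suppose that at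
all points `q` of `V` over `p` the map `f` is defined and `E` is trivial (`φ g` is a section of
`𝒪_V(ℓ)`).

If `ℓ ≥ n + (k + 1) r`, then for any `k` points `p' i ≠ p` of `W` at which `K_W + 𝓛` is also generated by
such forms there is a global section of `K_W + 𝓛` which generates `K_W + 𝓛` at `p` and vanishes at
all `p' i`.

If `ℓ ≥ n + 2 r`, then for each tangent vector `v` at the smooth point `p`, and for each limit `v` of
secant directions at `p` if `p` is not smooth, there is a global section of `K_W + 𝓛` which vanishes at
`p`, but whose derivative along `v` is not zero. -/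
theorem result {n ℓ N M : ℕ} {K : Type} [Field K] [Algebra ℂ K] [Algebra.EssFiniteType ℂ K]
    (hK : Algebra.trdeg ℂ K = n) {x : Fin N → K} (hx : x ≠ 0)
    (L : Type) [Field L] [Algebra ℂ L] [Algebra L K] [IsScalarTower ℂ L K]
    [FiniteDimensional L K] {y : Fin M → L}
    (a : Place ℂ L → ℤ) {φ : K} (pullback : PullBack n ℓ x a φ)
    {p : Fin M → ℂ} (hp : IsPoint y p) {g : L} {t : Fin n → L}
    (generator : AdjointGenerator a y p g t)
    (fibre : ∀ (κ : Type) [Field κ] [Algebra ℂ κ] (q : Fin N → κ), InGraph x y q p →
      Defined x y q ∧ SectionOfO ℓ x q (φ * algebraMap L K g)) :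
    (∀ k : ℕ, n + (k + 1) * Module.finrank L K ≤ ℓ →
      ∀ (p' : Fin k → Fin M → ℂ) (g' : Fin k → L) (t' : Fin k → Fin n → L),
        (∀ i, IsPoint y (p' i)) → (∀ i, ∃ j l, p j * p' i l ≠ p l * p' i j) →
        (∀ i, AdjointGenerator a y (p' i) (g' i) (t' i)) →
        ∃ θ : (Fin n → Derivation ℂ L L) → L, GlobalSection a θ ∧ Generates a y p θ ∧
          ∀ i, VanishesAt y (p' i) (form (g' i) (t' i)) θ) ∧
    (n + 2 * Module.finrank L K ≤ ℓ →
      ∀ v : Fin M → ℂ, (SmoothPoint y p ∧ IsTangent y p v) ∨ LimitDirection y p v →
        ∃ θ : (Fin n → Derivation ℂ L L) → L, GlobalSection a θ ∧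
          VanishesNotAlong y p v (form g t) θ) := by
  have h1 : 0 < Module.finrank L K := Module.finrank_pos
  refine ⟨fun k hk p' g' t' hp' hpp' hgen' => ?_, fun hk v hv => ?_⟩
  · obtain ⟨r, hr⟩ : ∃ r, Module.finrank L K = r + 1 := ⟨Module.finrank L K - 1, by omega⟩
    rw [hr] at hk
    have h2 : (k + 1) * (r + 1) = k * (r + 1) + (r + 1) := by ring
    obtain ⟨T, hT⟩ : ∃ T, ℓ = k * (r + 1) + T + (n + 1) := ⟨ℓ - (k * (r + 1) + (n + 1)), by omega⟩
    subst hT
    obtain ⟨θ, hθ1, hθ2, hθ3, hθ4⟩ := Pool.Agent.H90.VA.fuj_pts (m := k * (r + 1) + T) (r := r)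
      (T := T) (k := k) hK hx (by omega) (by omega) rfl a pullback.1 pullback.2 hp generator.1
      generator.2.1 generator.2.2 fibre hp' hpp' (fun i => (hgen' i).2.1)
      (fun i => (hgen' i).2.2)
    exact ⟨θ, ⟨hθ1, hθ2⟩, hθ3, hθ4⟩
  · obtain ⟨r, hr⟩ : ∃ r, Module.finrank L K = r + 1 := ⟨Module.finrank L K - 1, by omega⟩
    rw [hr] at hk
    obtain ⟨T, hT⟩ : ∃ T, ℓ = r + 1 + T + (n + 1) := ⟨ℓ - (r + 1 + (n + 1)), by omega⟩
    subst hT
    have hd : Pool.Agent.H90.VA.Direction y p v := by
      rcases hv with hv | hv
      · exact Pool.Agent.H90.VA.smooth_dir Pool.Agent.H90.VA.arca Pool.Agent.H90.VA.arcb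
          hp hv.1 hv.2
      · exact hv
    obtain ⟨θ, hθ1, hθ2, hθ3⟩ := Pool.Agent.H90.VA.fuj_tan (m := r + 1 + T) (r := r)
      (T := T) hK hx (by omega) (by omega) rfl a pullback.1 pullback.2 hp hd generator.1
      generator.2.1 generator.2.2 fibre
    exact ⟨θ, ⟨hθ1, hθ2⟩, hθ3⟩

end Pool.Agent.Results.MP_9ff3e7_ag.VeryAmpleImages
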