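import Pool.Agent.H90.TV.Sep

/-!
# Very ampleness for quotients of hypersurfaces in toric varieties

Let `P` be the toric variety of a complete simplicial fan in `ℤ^N` with the rays `u_i`, `i ∈ ι`, in
Cox coordinates: the points of `P` are the vectors `y ∈ ℂ^ι` such that `{i | y_i = 0}` is a cone, modulo
the group of the `t ∈ (ℂˣ)^ι` with `∏ t_i ^ m(u_i) = 1` for all integral linear forms `m` (`IsRel`). The
divisor classes are the `a ∈ ℤ^ι` modulo linear equivalence, and the class group may have torsion. Let
`X = {f = 0}` be a hypersurface contained in the smooth locus of `P`, of dimension `n = N - 1`, where `f`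
is homogeneous of the class `D`, and let `A_1, …, A_k` be `k ≥ n + 2` divisor classes. We assume that `D`
and the `A_q` are ample and numerically base point free. Then `K_X + A_1 + ⋯ + A_k` is very ample on `X`:
its sections, the polynomials in the class `K_P + D + ∑ A_q`, have no common zeros on `X`, separate the
points of `X` and the tangent vectors of `X`. `X` need not be smooth.

The classes are free only up to torsion classes, so that this is not a statement on very ample or
globally generated line bundles. In geometric terms: let `P'` be the toric variety of the sublattice of
`ℤ^N` generated by the `u_i`; then `P = P'/G` for a finite subgroup `G` of the torus and `X = Y/G` for a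
hypersurface `Y ⊂ P'`, on which `G` acts freely if `Y` is in the smooth locus of `P'`. If `P'` is smooth,
for example a product of projective spaces, all ample classes are numerically free, and for smooth `X` of
dimension at least three all line bundles on `X` are restrictions of classes of `P` (Lefschetz). So Q2 is
true for the quotients `Y/G`, `dim ≥ 3`, of the smooth ample hypersurfaces `Y` in smooth projective toric
varieties by the finite subgroups `G` of the torus which act freely on `Y`.

Proof. Let `y ∈ X` be in the orbit `O_τ`. If there is a regular maximal cone `ρ ⊇ τ`, the polytope of the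
class `B = K_P + D + ∑ A_q` has an integral vertex at `ρ` and edges of length at least one. Otherwise the
equation `f` contains the monomials of all vertices of the polytope of `D` for `ρ ⊇ τ`, and all walls
containing `τ` are regular, since `X` intersects their orbits. The integral points of the class `B` on the
faces of the polytope are the points of a coset of a lattice of index equal to the multiplicities of the
cones; we have to show that they generate this lattice, which can be checked on the two-dimensional
faces. If such a face is not a triangle, it contains, at a suitable vertex, a parallelogram, and the points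
in the strips near an edge generate (`square_core`). If it is a triangle, then all classes of degree
greater than `(1 - ∑ 1/e_j)/2` contain monomials, by an averaging argument which replaces the theorem of
Riemann-Roch for the curve `X ∩ V(τ)` (`exists_monomial`), and one factors the monomials of class `B`
into products of two monomials of half the degree (`triangle`).
-/

set_option autoImplicit false

namespace Pool.Agent.Results.MP_9ff3e7_ag.VeryAmpleToricHypersurfaces

open H90.TF H90.TV MvPolynomial

/-- **Fujita's very ampleness conjecture for quotients of hypersurfaces in toric varieties.** Let `u`, `S`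
be a complete simplicial fan in `ℤ^N`, `P` its toric variety, `X = {f = 0} ⊂ P` with `f` homogeneous of
the class `D`, contained in the smooth locus of `P`, `n = N - 1`, and let `A_1, …, A_k`, `k ≥ n + 2`, be
classes. Let `D` and the `A_q` be ample and numerically free. Then the sections `F` of the class
`K_P + D + ∑ A_q = D + ∑ A_q - 1` (the class of `K_X + A_1 + ⋯ + A_k`)

* have no base points on `X`,
* separate the points of `X`: for points `y`, `z` of `X` which are not equal in `P` there is a section
  `F` with `F(y) = 0` and `F(z) ≠ 0`,
* separate the tangent vectors of `X`: for a point `y` of `X` and a vector `w` with `d f_y(w) = 0` which is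
  not tangent to the orbit of `y` for the group by which `P` is a quotient (`w` is non-zero in the tangent
  space of `X`) there is a section `F` with `F(y) = 0` and `d F_y(w) ≠ 0`. -/
theorem result {ι : Type} [Fintype ι] {N k : ℕ} (u : ι → Fin N → ℤ) (S : Set (Set ι))
    (hS : IsFan u S) (hk : N + 1 ≤ k) (f : MvPolynomial ι ℂ) (D : ι → ℤ) (hf : IsHomog u f D)
    (hD : IsAmpleFree u S D) (hreg : ∀ y, OnX S f y → IsRegularCone u {i | y i = 0})
    (A : Fin k → ι → ℤ) (hA : ∀ q, IsAmpleFree u S (A q)) :
    (∀ y, OnX S f y → ∃ F, IsHomog u F (fun i => D i + ∑ q, A q i - 1) ∧ eval y F ≠ 0) ∧
    (∀ y z, OnX S f y → OnX S f z → (¬ ∃ t, IsRel u t ∧ ∀ i, z i = t i * y i) →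
      ∃ F, IsHomog u F (fun i => D i + ∑ q, A q i - 1) ∧ eval y F = 0 ∧ eval z F ≠ 0) ∧
    ∀ y w : ι → ℂ, OnX S f y → ∑ i, w i * eval y (pderiv i f) = 0 →
      (¬ ∃ s : ι → ℂ, (∀ k, ∑ i, s i * (u i k : ℂ) = 0) ∧ ∀ i, w i = s i * y i) →
      ∃ F, IsHomog u F (fun i => D i + ∑ q, A q i - 1) ∧ eval y F = 0 ∧
        ∑ i, w i * eval y (pderiv i F) ≠ 0 :=
  main hS hk hf hD hreg hA

end Pool.Agent.Results.MP_9ff3e7_ag.VeryAmpleToricHypersurfaces
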